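import Pool.Agent.P.MP_e9161b_co.Main2

/-!
The maximal fractional cochromatic number of a graph with `n` vertices and `m` edges does not
decrease from `m` to `m + 1` as long as `m` is at most a constant times
`n ^ 2 / (log log n) ^ 2`.
-/

namespace Pool.Agent.Results.MP_e9161b_co.LogLogMonotone

open Pool.Agent.P.MP_e9161b_co

theorem result (n m : ℕ) (hn : 16 ≤ n)
    (hm : 10 ^ 15 * (m : ℝ) * Real.log (Real.log n) ^ 2 ≤ (n : ℝ) ^ 2) :
    Zmax n m ≤ Zmax n (m + 1) := by
  have l2 := Real.log_two_gt_d9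
  have i1 : 256 ^ Nat.log 256 n ≤ n := Nat.pow_log_le_self 256 (by omega)
  have i2 : n ≤ 256 ^ (Nat.log 256 n + 1) := (Nat.lt_pow_succ_log_self (by norm_num) n).le
  generalize Nat.log 256 n = i at i1 i2
  have key : ∀ a : ℕ, (a : ℝ) ≤ 3 * 10 ^ 7 * Real.log (Real.log n) → a ^ 2 * m ≤ n ^ 2 := by
    intro a ha
    have h7 := pow_le_pow_left₀ (Nat.cast_nonneg a) ha 2
    have h8 : (a : ℝ) ^ 2 * m ≤ (n : ℝ) ^ 2 := by
      refine le_trans ?_ hm
      nlinarith [Nat.cast_nonneg (α := ℝ) m, mul_nonneg (Nat.cast_nonneg (α := ℝ) m)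
        (sq_nonneg (Real.log (Real.log n)))]
    exact_mod_cast h8
  refine Zmax_le fun G y hG hy => ?_
  rw [← hG]
  by_cases c : i < 225
  · refine step hy (j := 1800) (by norm_num) ?_ ?_ ?_
    · rw [Fintype.card_fin, show 1800 = 8 * 225 by norm_num, pow_mul]
      exact i2.trans (Nat.pow_le_pow_right (by norm_num) c)
    · rw [Fintype.card_fin]
      omega
    · rw [Fintype.card_fin, hG]
      refine key _ ?_
      have h1 : Real.log (2 ^ 4) ≤ Real.log n :=
        Real.log_le_log (by norm_num) (by exact_mod_cast hn)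
      rw [Real.log_pow] at h1
      have h2 : Real.log 2 ≤ Real.log (Real.log n) :=
        Real.log_le_log two_pos (by push_cast at h1; linarith)
      push_cast
      linarith
  · have c1 : i + 1 ≤ 2 ^ (i / 5) := by
      obtain ⟨a, ha⟩ : ∃ a, i / 5 = a + 10 := ⟨i / 5 - 10, by omega⟩
      have := Nat.lt_two_pow_self (n := a)
      rw [ha, pow_add]
      omega
    have c2 : Nat.clog 2 (i + 1) ≤ i / 5 := (Nat.clog_le_iff_le_pow one_lt_two).2 c1
    have c3 : i + 1 ≤ 2 ^ Nat.clog 2 (i + 1) := Nat.le_pow_clog one_lt_two _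
    have c4 : 2 ^ (Nat.clog 2 (i + 1) - 1) < i + 1 := Nat.pow_pred_clog_lt_self one_lt_two (by omega)
    generalize Nat.clog 2 (i + 1) = a at c2 c3 c4
    refine step2 hy (i := i) (J := max 45 a) (by rwa [Fintype.card_fin])
      (by rwa [Fintype.card_fin]) (c3.trans (Nat.pow_le_pow_right two_pos (le_max_right _ _)))
      (by omega) (le_max_left _ _) ?_
    rw [Fintype.card_fin, hG]
    refine key _ ?_
    have h0 : (225 : ℝ) ≤ i := by exact_mod_cast not_lt.1 c
    have h1 : Real.log ((2 ^ 8) ^ i) ≤ Real.log n :=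
      Real.log_le_log (by positivity) (by exact_mod_cast i1)
    rw [Real.log_pow, Real.log_pow] at h1
    have h2 : (i : ℝ) + 1 ≤ Real.log n := by
      push_cast at h1
      nlinarith
    have h3 : Real.log (2 ^ 7) ≤ Real.log (Real.log n) :=
      Real.log_le_log (by norm_num) (by linarith)
    have h4 : Real.log (2 ^ (a - 1)) ≤ Real.log (Real.log n) :=
      Real.log_le_log (by positivity) (le_trans (by exact_mod_cast c4.le) h2)
    rw [Real.log_pow] at h3 h4
    have h5 : ((max 45 a : ℕ) : ℝ) ≤ 45 + (a - 1 : ℕ) := by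
      exact_mod_cast (by omega : max 45 a ≤ 45 + (a - 1))
    have h6 : ((a - 1 : ℕ) : ℝ) ≤ 2 * Real.log (Real.log n) := by
      nlinarith [Nat.cast_nonneg (α := ℝ) (a - 1)]
    rw [Nat.cast_mul]
    push_cast at h3 ⊢
    push_cast at h5
    linarith

end Pool.Agent.Results.MP_e9161b_co.LogLogMonotone
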